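import Pool.Agent.W558.WD.Stms
import Pool.Agent.W558.S.All

set_option autoImplicit false
set_option linter.unusedVariables false

universe u

open Polynomial

namespace Pool.Agent.W930.WDG

open Pool.Agent.W558

theorem log_strong (k E : Type u) [Field k] [Field E] [Algebra k E] [PerfectField k]
    (h2 : Algebra.trdeg k E = 2) (s : SM k E) (G : Type) [Finite G] (g : G → E)
    (hg : ∀ b, g b ≠ 0) :
    ∃ s' : SM k E, s.Le s' ∧ ∀ W, s'.Dv W → s'.Bdy W ∨ (s.Dv W ∧ ∀ b, g b ∈ W ∧ (g b)⁻¹ ∈ W) := by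
  have hfin := all_fin.{u}
  have step : ∀ (s : SM k E) (W : Subalgebra k E), s.Wd W →
      ∃ s', s.Le s' ∧ (s'.Dv W → s'.Bdy W) := by
    intro s W hW
    by_cases hx : ∀ t i, s.M.A t ≤ W → ¬ NU W (s.M.x t i)
    · obtain ⟨s1, h1, h1x, h1g⟩ := all_ph1 k E h2 s W hW hx
      have hW1 := hW.mono h1
      obtain ⟨s2, h3, h3x, h3g⟩ := all_ph2 k E h2 s1 W hW1 h1x h1g
      have hW2 := hW1.mono h3
      obtain ⟨s3, h4, h5⟩ := all_add k E h2 s2 W hW2 h3x h3g
      exact ⟨s3, (h1.trans h3).trans h4, h5⟩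
    · push Not at hx
      obtain ⟨t, i, h1, h2⟩ := hx
      exact ⟨s, .refl s, fun _ => ⟨t, i, hW t h1, h2⟩⟩
  have fin : ∀ F : Set (Subalgebra k E), F.Finite → ∀ s : SM k E, (∀ W ∈ F, s.Wd W) →
      ∃ s', s.Le s' ∧ ∀ W ∈ F, s'.Dv W → s'.Bdy W := by
    intro F hF
    induction F, hF using Set.Finite.induction_on with
    | empty =>
      intro s _
      exact ⟨s, .refl s, fun W hW => absurd hW (Set.notMem_empty W)⟩
    | @insert W F hWF hF ih =>
      intro s hs
      obtain ⟨s1, h1, h3⟩ := step s W (hs W (Set.mem_insert _ _))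
      obtain ⟨s2, h4, h5⟩ := ih s1 (fun W' hW' => (hs W' (Set.mem_insert_of_mem _ hW')).mono h1)
      refine ⟨s2, h1.trans h4, ?_⟩
      rintro W' (rfl | hW') hdv
      · rcases h4.dv _ hdv with h6 | h6
        · exact h4.bd _ hdv (h3 h6)
        · exact h6
      · exact h5 W' hW' hdv
  choose a ha c hc hc0 hac using fun (t : s.T) (b : G) => (s.sf t).fr (g b)
  let F : Set (Subalgebra k E) := {W | s.Dv W ∧ ∃ b, ¬ (g b ∈ W ∧ (g b)⁻¹ ∈ W)}
  have hF : F.Finite := by
    have h3 : F ⊆ ⋃ t : s.T, ⋃ b : G, {W | IsDv (s.M.A t) W ∧ NU W (a t b * c t b)} := by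
      rintro W ⟨⟨t, ht⟩, b, hb⟩
      refine Set.mem_iUnion.2 ⟨t, Set.mem_iUnion.2 ⟨b, ht, ?_⟩⟩
      by_contra hn
      rw [not_NU_iff (ht.le ((s.M.A t).mul_mem (ha t b) (hc t b)))] at hn
      apply hb
      obtain ⟨h4, h5⟩ := hn
      have ha0 : a t b ≠ 0 := left_ne_zero_of_mul h4
      have hc0 := hc0 t b
      have h6 : (a t b)⁻¹ ∈ W := by
        have := W.mul_mem h5 (ht.le (hc t b))
        have e : (a t b * c t b)⁻¹ * c t b = (a t b)⁻¹ := by field_simp
        rwa [e] at this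
      have h7 : (c t b)⁻¹ ∈ W := by
        have := W.mul_mem h5 (ht.le (ha t b))
        have e : (a t b * c t b)⁻¹ * a t b = (c t b)⁻¹ := by field_simp
        rwa [e] at this
      rw [hac t b]
      refine ⟨W.mul_mem (ht.le (ha t b)) h7, ?_⟩
      rw [mul_inv, inv_inv]
      exact W.mul_mem h6 (ht.le (hc t b))
    refine Set.Finite.subset (Set.finite_iUnion fun t => Set.finite_iUnion fun b => ?_) h3
    refine (hfin k E h2 _ (s.sf t)).2.1 _ ((s.M.A t).mul_mem (ha t b) (hc t b)) ?_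
    refine mul_ne_zero ?_ (hc0 t b)
    intro h0
    apply hg b
    rw [hac t b, h0, zero_mul]
  obtain ⟨s', h3, h4⟩ := fin F hF s (fun W hW => hW.1.wd)
  refine ⟨s', h3, ?_⟩
  intro W hW
  rcases h3.dv W hW with h5 | h5
  · by_cases h6 : W ∈ F
    · exact Or.inl (h4 W h6 hW)
    · right
      refine ⟨h5, ?_⟩
      intro b
      by_contra hb
      exact h6 ⟨h5, b, hb⟩
  · exact Or.inl h5

section

variable {k E : Type u} [Field k] [Field E] [Algebra k E]

/-- A common denominator for a derivation on a chart. -/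
lemma exists_denom {A : Subalgebra k E} (hA : Sf A) (D : Derivation k E E) :
    ∃ c ∈ A, c ≠ 0 ∧ ∀ a ∈ A, c * D a ∈ A := by
  classical
  have hsm := hA.sm
  have hft : Algebra.FiniteType k A := inferInstance
  have hfg : A.FG := A.fg_iff_finiteType.2 hft
  obtain ⟨S, hS⟩ := hfg
  choose n hn d hd hd0 hnd using fun x : E => hA.fr (D x)
  refine ⟨∏ x ∈ S, d x, Subalgebra.prod_mem _ fun x _ => hd x,
    Finset.prod_ne_zero_iff.2 fun x _ => hd0 x, ?_⟩
  intro a ha
  rw [← hS] at ha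
  induction ha using Algebra.adjoin_induction with
  | mem x hx =>
    have hx' : x ∈ S := by simpa using hx
    rw [hnd x, ← Finset.mul_prod_erase S d hx']
    have e : d x * (∏ y ∈ S.erase x, d y) * (n x * (d x)⁻¹) = n x * ∏ y ∈ S.erase x, d y := by
      have := hd0 x
      field_simp
    rw [e]
    exact A.mul_mem (hn x) (Subalgebra.prod_mem _ fun y _ => hd y)
  | algebraMap r =>
    rw [Derivation.map_algebraMap, mul_zero]
    exact A.zero_mem
  | add x y hx hy ihx ihy =>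
    rw [map_add, mul_add]
    exact A.add_mem ihx ihy
  | mul x y hx hy ihx ihy =>
    rw [hS] at hx hy
    rw [Derivation.leibniz]
    simp only [smul_eq_mul]
    have e : (∏ x ∈ S, d x) * (x * D y + y * D x) =
        x * ((∏ x ∈ S, d x) * D y) + y * ((∏ x ∈ S, d x) * D x) := by ring
    rw [e]
    exact A.add_mem (A.mul_mem hx ihy) (A.mul_mem hy ihx)

/-- A derivation preserving the chart which does not kill `f`. -/
lemma exists_der_pres {A : Subalgebra k E} (hA : Sf A) (f : E)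
    (hf : ∃ D : Derivation k E E, D f ≠ 0) :
    ∃ D : Derivation k E E, (∀ a ∈ A, D a ∈ A) ∧ D f ≠ 0 := by
  obtain ⟨D, hD⟩ := hf
  obtain ⟨c, hc, hc0, h1⟩ := exists_denom hA D
  refine ⟨c • D, ?_, ?_⟩
  · intro a ha
    rw [Derivation.smul_apply, smul_eq_mul]
    exact h1 a ha
  · rw [Derivation.smul_apply, smul_eq_mul]
    exact mul_ne_zero hc0 hD

/-- The derivation preserves the divisors of the chart. -/
lemma der_dv {A W : Subalgebra k E} (hW : IsDv A W) (D : Derivation k E E)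
    (hD : ∀ a ∈ A, D a ∈ A) : ∀ a ∈ W, D a ∈ W := by
  intro x hx
  obtain ⟨a, ha, b, hb, hb0, hbi, rfl⟩ := hW.frac x hx
  rw [Derivation.leibniz, Derivation.leibniz_inv]
  simp only [smul_eq_mul]
  refine W.add_mem (W.mul_mem (hW.le ha) ?_) (W.mul_mem hbi (hW.le (hD a ha)))
  exact W.mul_mem (W.neg_mem (W.pow_mem hbi 2)) (hW.le (hD b hb))

end

/-- GIN: the initial surface. -/
theorem main : WD_gin.{u} := by
  intro k E _ _ _ _ h2 s G _ g hg f hf
  have hf0 : f ≠ 0 := by
    rintro rfl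
    obtain ⟨D, hD⟩ := hf
    exact hD (map_zero D)
  choose D hDA hDf using fun t : s.T => exists_der_pres (s.sf t) f hf
  obtain ⟨s', hle, h3⟩ := log_strong k E h2 s (G ⊕ (Unit ⊕ s.T))
    (Sum.elim g (Sum.elim (fun _ => f) fun t => D t f)) (by
      rintro (b | b | t)
      · exact hg b
      · exact hf0
      · exact hDf t)
  obtain ⟨Γ, hΓ⟩ := all_fn k E h2 s' G g hg (by
    intro W hW
    rcases h3 W hW with h4 | h4
    · exact Or.inl h4
    · exact Or.inr fun b => h4.2 (Sum.inl b))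
  refine ⟨s', Γ, hΓ, ?_⟩
  intro W hW
  rcases h3 W hW with h4 | ⟨⟨t, ht⟩, h4⟩
  · exact Or.inl h4
  · refine Or.inr ⟨(h4 (Sum.inr (Sum.inl ()))).1, D t, der_dv ht (D t) (hDA t), hDf t,
      (h4 (Sum.inr (Sum.inr t))).1, (h4 (Sum.inr (Sum.inr t))).2⟩

end Pool.Agent.W930.WDG
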